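import Pool.Agent.H608R4.KM.Stm

/-! KM-CL: existence of the clusters. -/

set_option autoImplicit false

namespace Pool.Agent.TH509.KM

open Pool.Agent.H608R4.KM

theorem single (x y : ℝ) (h : x ^ 2 + y ^ 2 = 1) : ∃ (k : ZMod 4) (c s : ℝ),
    c ^ 2 + s ^ 2 = 1 ∧ 0 < c ∧ 1 / 2 ≤ c ^ 2 ∧ (k = 0 → x = c ∧ y = s) ∧
    (k = 1 → x = -s ∧ y = c) ∧ (k = 2 → x = -c ∧ y = -s) ∧ (k = 3 → x = s ∧ y = -c) := by
  have h10 : (1 : ZMod 4) ≠ 0 := by decide
  have h20 : (2 : ZMod 4) ≠ 0 := by decide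
  have h30 : (3 : ZMod 4) ≠ 0 := by decide
  have h21 : (2 : ZMod 4) ≠ 1 := by decide
  have h31 : (3 : ZMod 4) ≠ 1 := by decide
  have h32 : (3 : ZMod 4) ≠ 2 := by decide
  rcases le_or_gt (y ^ 2) (x ^ 2) with h1 | h1
  · have hx2 : 1 / 2 ≤ x ^ 2 := by linarith
    have hx0 : x ≠ 0 := by
      rintro rfl
      norm_num at hx2
    rcases lt_or_gt_of_ne hx0 with h2 | h2
    · refine ⟨2, -x, -y, by nlinarith, by linarith, by nlinarith, ?_, ?_, ?_, ?_⟩
      · intro h3; exact absurd h3 h20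
      · intro h3; exact absurd h3 h21
      · intro _; constructor <;> ring
      · intro h3; exact absurd h3.symm h32
    · refine ⟨0, x, y, h, h2, hx2, ?_, ?_, ?_, ?_⟩
      · intro _; exact ⟨rfl, rfl⟩
      · intro h3; exact absurd h3.symm h10
      · intro h3; exact absurd h3.symm h20
      · intro h3; exact absurd h3.symm h30
  · have hy2 : 1 / 2 ≤ y ^ 2 := by linarith
    have hy0 : y ≠ 0 := by
      rintro rfl
      norm_num at hy2
    rcases lt_or_gt_of_ne hy0 with h2 | h2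
    · refine ⟨3, -y, x, by nlinarith, by linarith, by nlinarith, ?_, ?_, ?_, ?_⟩
      · intro h3; exact absurd h3 h30
      · intro h3; exact absurd h3 h31
      · intro h3; exact absurd h3 h32
      · intro _; constructor <;> ring
    · refine ⟨1, y, -x, by nlinarith, h2, hy2, ?_, ?_, ?_, ?_⟩
      · intro h3; exact absurd h3 h10
      · intro _; constructor <;> ring
      · intro h3; exact absurd h3.symm h21
      · intro h3; exact absurd h3.symm h31

theorem t_CL : S_CL := by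
  intro n x y h
  choose k c s h1 h2 h3 h4 h5 h6 h7 using fun i => single (x i) (y i) (h i)
  exact ⟨k, c, s, ⟨h1, h2, h3, h4, h5, h6, h7⟩⟩

end Pool.Agent.TH509.KM
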